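import Pool.Agent.H508R3.WS.Stmts

set_option autoImplicit false

open Filter Topology

namespace Pool.Agent.H189R3.WS

open Pool.Agent.H508R3.WS

/-- separated sets have bounded cardinality -/
theorem sep_bdd {X : Type} [MetricSpace X] [CompactSpace X] (F : X → X) (hF : Continuous F)
    (R' : Set (X × X)) (hR' : ∀ x : X, (x, x) ∈ interior R') (T : ℕ) :
    ∃ N : ℕ, ∀ E : Finset X, Sep R' F T E → E.card ≤ N := by
  classical
  have hO : ∀ x : X, ∃ V ∈ 𝓝 x, ∀ y ∈ V, ∀ z ∈ V, ∀ t < T, (F^[t] y, F^[t] z) ∈ R' := by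
    intro x
    have h1 : {p : X × X | ∀ t ∈ Finset.range T, (F^[t] p.1, F^[t] p.2) ∈ interior R'} ∈
        𝓝 (x, x) := by
      have h2 : {p : X × X | ∀ t ∈ Finset.range T, (F^[t] p.1, F^[t] p.2) ∈ interior R'} =
          ⋂ t ∈ Finset.range T, {p : X × X | (F^[t] p.1, F^[t] p.2) ∈ interior R'} := by
        ext p; simp
      rw [h2, Filter.biInter_finset_mem]
      intro t _
      have hc : Continuous (fun p : X × X => (F^[t] p.1, F^[t] p.2)) :=
        ((hF.iterate t).comp continuous_fst).prodMk ((hF.iterate t).comp continuous_snd)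
      exact (isOpen_interior.preimage hc).mem_nhds (hR' _)
    rw [mem_nhds_prod_iff] at h1
    obtain ⟨u, hu, v, hv, huv⟩ := h1
    refine ⟨u ∩ v, inter_mem hu hv, ?_⟩
    intro y hy z hz t ht
    have h3 := huv (Set.mk_mem_prod hy.1 hz.2)
    exact interior_subset (h3 t (Finset.mem_range.2 ht))
  choose V hV hV2 using hO
  obtain ⟨c, hc⟩ := CompactSpace.elim_nhds_subcover V hV
  refine ⟨c.card, fun E hE => ?_⟩
  have h4 : ∀ y : X, ∃ x ∈ c, y ∈ V x := by
    intro y
    have : y ∈ ⋃ x ∈ c, V x := by rw [hc]; trivial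
    simpa using this
  choose g hg hg2 using h4
  apply Finset.card_le_card_of_injOn g
  · intro y _
    exact hg y
  · intro y hy z hz hyz
    by_contra hne
    obtain ⟨t, ht, hn⟩ := hE y hy z hz hne
    apply hn
    apply hV2 (g y) y (hg2 y) z _ t ht
    rw [hyz]
    exact hg2 z

theorem taskA3 : TaskA3 := by
  classical
  intro X _ _ F hF R W R' h _ hdiag hR'W hWR hsymm hspan hsep
  have hdiagW : ∀ x : X, (x, x) ∈ W := fun x => hR'W (interior_subset (hdiag x))
  have hbdd : ∀ T, BddAbove {n | ∃ E : Finset X, Sep R' F T E ∧ E.card = n} := by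
    intro T
    obtain ⟨N, hN⟩ := sep_bdd F hF R' hdiag T
    refine ⟨N, ?_⟩
    rintro n ⟨E, hE, rfl⟩
    exact hN E hE
  have hsub : ∀ T, {n | ∃ E : Finset X, Sep W F T E ∧ E.card = n} ⊆
      {n | ∃ E : Finset X, Sep R' F T E ∧ E.card = n} := by
    rintro T n ⟨E, hE, rfl⟩
    refine ⟨E, fun x hx y hy hxy => ?_, rfl⟩
    obtain ⟨t, ht, hn⟩ := hE x hx y hy hxy
    exact ⟨t, ht, fun h => hn (hR'W h)⟩
  have hne : ∀ T, {n | ∃ E : Finset X, Sep W F T E ∧ E.card = n}.Nonempty :=
    fun T => ⟨0, ∅, fun x hx => absurd hx (Finset.notMem_empty x), rfl⟩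
  have hbddW : ∀ T, BddAbove {n | ∃ E : Finset X, Sep W F T E ∧ E.card = n} :=
    fun T => (hbdd T).mono (hsub T)
  have h3 : ∀ T, sepN W F T ≤ sepN R' F T := fun T => csSup_le_csSup (hbdd T) (hne T) (hsub T)
  -- a maximal separated set is spanning
  have hmax : ∀ T, ∃ E : Finset X, Span W F T E ∧ E.card = sepN W F T := by
    intro T
    obtain ⟨E, hE, hcard⟩ := Nat.sSup_mem (hne T) (hbddW T)
    refine ⟨E, ?_, hcard⟩
    intro x
    by_cases hx : x ∈ E
    · exact ⟨x, hx, fun t _ => hdiagW _⟩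
    · by_contra hcon
      push Not at hcon
      have hins : Sep W F T (insert x E) := by
        intro y hy z hz hyz
        rw [Finset.mem_insert] at hy hz
        rcases hy with rfl | hy
        · rcases hz with rfl | hz
          · exact absurd rfl hyz
          · exact hcon z hz
        · rcases hz with rfl | hz
          · obtain ⟨t, ht, hn⟩ := hcon y hy
            exact ⟨t, ht, fun h => hn (hsymm _ _ h)⟩
          · exact hE y hy z hz hyz
      have h5 : (insert x E).card ≤ sSup {n | ∃ E : Finset X, Sep W F T E ∧ E.card = n} :=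
        le_csSup (hbddW T) ⟨_, hins, rfl⟩
      rw [Finset.card_insert_of_notMem hx, ← hcard] at h5
      omega
  have h2 : ∀ T, spanN W F T ≤ sepN W F T := by
    intro T
    obtain ⟨E, hE, hcard⟩ := hmax T
    exact Nat.sInf_le ⟨E, hE, hcard⟩
  have h1 : ∀ T, spanN R F T ≤ spanN W F T := by
    intro T
    obtain ⟨E, hE, _⟩ := hmax T
    obtain ⟨S, hS, hcard⟩ := Nat.sInf_mem
      (s := {n | ∃ S : Finset X, Span W F T S ∧ S.card = n}) ⟨_, E, hE, rfl⟩
    refine Nat.sInf_le ⟨S, fun x => ?_, hcard⟩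
    obtain ⟨y, hy, hy2⟩ := hS x
    exact ⟨y, hy, fun t ht => hWR (hy2 t ht)⟩
  have hlog : ∀ (a b T : ℕ), a ≤ b → Real.log a / T ≤ Real.log b / T := by
    intro a b T hab
    apply div_le_div_of_nonneg_right _ (Nat.cast_nonneg T)
    rcases Nat.eq_zero_or_pos a with h0 | h0
    · subst h0
      simpa using Real.log_natCast_nonneg b
    · apply Real.log_le_log
      · exact_mod_cast h0
      · exact_mod_cast hab
  constructor
  · exact tendsto_of_tendsto_of_tendsto_of_le_of_le hspan hsep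
      (fun T => hlog _ _ T (h1 T)) (fun T => hlog _ _ T ((h2 T).trans (h3 T)))
  · exact tendsto_of_tendsto_of_tendsto_of_le_of_le hspan hsep
      (fun T => hlog _ _ T ((h1 T).trans (h2 T))) (fun T => hlog _ _ T (h3 T))

end Pool.Agent.H189R3.WS
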